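import Mathlib
import Pool.Agent.Q266.Quint

set_option autoImplicit false

/-!
Q2: divisibility of the normalised `28k^2+18k+3` sum.
-/

namespace Pool.Agent.Results.MP_147bb8_nt.Divisibility

open Finset Q266.Quint

theorem fac_ne (j : ℕ) : (j.factorial : ℚ) ≠ 0 := by exact_mod_cast Nat.factorial_ne_zero j

/-- `a_k` of the problem. -/
def a (k : ℕ) : ℤ :=
  (28 * (k : ℤ) ^ 2 + 18 * k + 3) * ((2 * k).choose k : ℤ) ^ 4 * ((3 * k).choose k : ℤ)

/-- `(1/2)(3/2)⋯(m-1/2)` -/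
noncomputable def g (m : ℕ) : ℚ := ((2 * m).factorial : ℚ) / (4 ^ m * (m.factorial : ℚ))

theorem g_ne (m : ℕ) : g m ≠ 0 := div_ne_zero (fac_ne _) (mul_ne_zero (by positivity) (fac_ne _))

theorem g_zero : g 0 = 1 := by simp [g]

theorem g_succ (m : ℕ) : g (m + 1) = ((m : ℚ) + 1 / 2) * g m := by
  unfold g
  rw [show 2 * (m + 1) = 2 * m + 1 + 1 by ring, Nat.factorial_succ (2 * m + 1),
    Nat.factorial_succ (2 * m), Nat.factorial_succ m, pow_succ]
  have g1 := fac_ne (2 * m)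
  have g2 := fac_ne m
  push_cast
  have q1 : (m : ℚ) + 1 ≠ 0 := by positivity
  field_simp
  ring

/-- first member of the pair -/
noncomputable def F (n k : ℕ) : ℚ :=
  if 2 * k ≤ n then g k / 4 ^ k * (28 * n ^ 2 + (18 - 20 * k) * n + 3 - 6 * k) * g n *
    g (n - k) ^ 2 * ((3 * n).factorial : ℚ) * (-1) ^ n /
      (((n + k).factorial : ℚ) * (n.factorial : ℚ) ^ 4 * ((n - 2 * k).factorial : ℚ))
  else 0

/-- second member of the pair -/
noncomputable def G (n k : ℕ) : ℚ :=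
  if 2 * k + 1 ≤ n then g k / 4 ^ k * n ^ 3 * g n *
    g (n - (k + 1)) ^ 2 * ((3 * n).factorial : ℚ) * (-1) ^ n /
      (((n + k).factorial : ℚ) * (n.factorial : ℚ) ^ 4 * ((n - (2 * k + 1)).factorial : ℚ))
  else 0

theorem pair (n k : ℕ) : F n (k + 1) - F n k = G (n + 1) k - G n k := by
  rcases Nat.lt_or_ge n (2 * k) with h | h
  · have h1 : ¬ (2 * (k + 1) ≤ n) := by omega
    have h2 : ¬ (2 * k ≤ n) := by omega
    have h3 : ¬ (2 * k + 1 ≤ n) := by omega
    have h4 : ¬ (2 * k + 1 ≤ n + 1) := by omega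
    simp only [F, G, h1, h2, h3, h4, if_false, sub_zero]
  rcases Nat.eq_or_lt_of_le h with h | h
  · subst h
    have h1 : ¬ (2 * (k + 1) ≤ 2 * k) := by omega
    have h3 : ¬ (2 * k + 1 ≤ 2 * k) := by omega
    have s2 : 2 * k - k = k := by omega
    have s4 : 2 * k + 1 - (k + 1) = k := by omega
    have s5 : 2 * k + 1 - (2 * k + 1) = 0 := by omega
    have s6 : 2 * k + 1 + k = 2 * k + k + 1 := by ring
    have e1 : 3 * (2 * k + 1) = 3 * (2 * k) + 1 + 1 + 1 := by ring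
    simp only [F, G, h1, h3, le_refl, if_true, if_false, s2, s4, s5, s6, Nat.sub_self,
      Nat.factorial_zero]
    rw [e1, Nat.factorial_succ (3 * (2 * k) + 1 + 1), Nat.factorial_succ (3 * (2 * k) + 1),
      Nat.factorial_succ (3 * (2 * k)), Nat.factorial_succ (2 * k + k), Nat.factorial_succ (2 * k),
      g_succ, pow_succ (-1 : ℚ)]
    have g1 := fac_ne (3 * (2 * k))
    have g2 := fac_ne (2 * k)
    have g3 := fac_ne (2 * k + k)
    have g4 := g_ne k
    have g5 := g_ne (2 * k)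
    generalize (3 * (2 * k)).factorial = A at *
    generalize (2 * k + k).factorial = B at *
    generalize (2 * k).factorial = C at *
    generalize g (2 * k) = D at *
    generalize g k = E at *
    generalize (-1 : ℚ) ^ (2 * k) = S at *
    push_cast
    have q2 : 2 * (k : ℚ) + 1 ≠ 0 := by positivity
    have q3 : 2 * (k : ℚ) + k + 1 ≠ 0 := by positivity
    field_simp
    ring
  rcases Nat.eq_or_lt_of_le (Nat.succ_le_of_lt h) with h | h
  · have hn : n = 2 * k + 1 := h.symm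
    subst hn
    have h1 : ¬ (2 * (k + 1) ≤ 2 * k + 1) := by omega
    have h2 : 2 * k ≤ 2 * k + 1 := by omega
    have h4 : 2 * k + 1 ≤ 2 * k + 1 + 1 := by omega
    have s2 : 2 * k + 1 - k = k + 1 := by omega
    have s3 : 2 * k + 1 - 2 * k = 1 := by omega
    have s4 : 2 * k + 1 + 1 - (k + 1) = k + 1 := by omega
    have s5 : 2 * k + 1 + 1 - (2 * k + 1) = 1 := by omega
    have s6 : 2 * k + 1 - (k + 1) = k := by omega
    have s7 : 2 * k + 1 + 1 + k = 2 * k + 1 + k + 1 := by ring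
    have e1 : 3 * (2 * k + 1 + 1) = 3 * (2 * k + 1) + 1 + 1 + 1 := by ring
    simp only [F, G, h1, h2, h4, le_refl, if_true, if_false, s2, s3, s4, s5, s6, s7, Nat.sub_self,
      Nat.factorial_zero, Nat.factorial_one]
    rw [e1, Nat.factorial_succ (3 * (2 * k + 1) + 1 + 1), Nat.factorial_succ (3 * (2 * k + 1) + 1),
      Nat.factorial_succ (3 * (2 * k + 1)), Nat.factorial_succ (2 * k + 1 + k),
      Nat.factorial_succ (2 * k + 1), g_succ (2 * k + 1), g_succ k, pow_succ (-1 : ℚ) (2 * k + 1)]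
    have g1 := fac_ne (3 * (2 * k + 1))
    have g2 := fac_ne (2 * k + 1)
    have g3 := fac_ne (2 * k + 1 + k)
    have g4 := g_ne k
    have g5 := g_ne (2 * k + 1)
    generalize (3 * (2 * k + 1)).factorial = A at *
    generalize (2 * k + 1 + k).factorial = B at *
    generalize (2 * k + 1).factorial = C at *
    generalize g (2 * k + 1) = D at *
    generalize g k = E at *
    generalize (-1 : ℚ) ^ (2 * k + 1) = S at *
    push_cast
    have q2 : 2 * (k : ℚ) + 1 + 1 ≠ 0 := by positivity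
    have q3 : 2 * (k : ℚ) + 1 + k + 1 ≠ 0 := by positivity
    field_simp
    ring
  · obtain ⟨m, rfl⟩ : ∃ m, n = 2 * k + 2 + m := ⟨n - 2 * k - 2, by omega⟩
    have h1 : 2 * (k + 1) ≤ 2 * k + 2 + m := by omega
    have h2 : 2 * k ≤ 2 * k + 2 + m := by omega
    have h3 : 2 * k + 1 ≤ 2 * k + 2 + m := by omega
    have h4 : 2 * k + 1 ≤ 2 * k + 2 + m + 1 := by omega
    have s1 : 2 * k + 2 + m - 2 * (k + 1) = m := by omega
    have s2 : 2 * k + 2 + m - k = k + m + 1 + 1 := by omega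
    have s3 : 2 * k + 2 + m - 2 * k = m + 1 + 1 := by omega
    have s4 : 2 * k + 2 + m + 1 - (k + 1) = k + m + 1 + 1 := by omega
    have s5 : 2 * k + 2 + m + 1 - (2 * k + 1) = m + 1 + 1 := by omega
    have s6 : 2 * k + 2 + m - (k + 1) = k + m + 1 := by omega
    have s7 : 2 * k + 2 + m - (2 * k + 1) = m + 1 := by omega
    have s8 : 2 * k + 2 + m + 1 + k = 2 * k + 2 + m + k + 1 := by ring
    have s9 : 2 * k + 2 + m + (k + 1) = 2 * k + 2 + m + k + 1 := by ring
    have e1 : 3 * (2 * k + 2 + m + 1) = 3 * (2 * k + 2 + m) + 1 + 1 + 1 := by ring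
    simp only [F, G, h1, h2, h3, h4, if_true, s1, s2, s3, s4, s5, s6, s7, s8, s9, e1]
    rw [Nat.factorial_succ (3 * (2 * k + 2 + m) + 1 + 1),
      Nat.factorial_succ (3 * (2 * k + 2 + m) + 1), Nat.factorial_succ (3 * (2 * k + 2 + m)),
      Nat.factorial_succ (2 * k + 2 + m + k), Nat.factorial_succ (2 * k + 2 + m),
      Nat.factorial_succ (m + 1), Nat.factorial_succ m, g_succ (2 * k + 2 + m),
      g_succ (k + m + 1), g_succ k, pow_succ (-1 : ℚ) (2 * k + 2 + m), pow_succ (4 : ℚ) k]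
    have g1 := fac_ne (3 * (2 * k + 2 + m))
    have g2 := fac_ne (2 * k + 2 + m)
    have g3 := fac_ne (2 * k + 2 + m + k)
    have g6 := fac_ne m
    have g4 := g_ne k
    have g5 := g_ne (2 * k + 2 + m)
    have g7 := g_ne (k + m + 1)
    generalize (3 * (2 * k + 2 + m)).factorial = A at *
    generalize (2 * k + 2 + m + k).factorial = B at *
    generalize (2 * k + 2 + m).factorial = C at *
    generalize m.factorial = H at *
    generalize g (2 * k + 2 + m) = D at *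
    generalize g (k + m + 1) = J at *
    generalize g k = E at *
    generalize (-1 : ℚ) ^ (2 * k + 2 + m) = S at *
    push_cast
    have q2 : 2 * (k : ℚ) + 2 + m + 1 ≠ 0 := by positivity
    have q3 : 2 * (k : ℚ) + 2 + m + k + 1 ≠ 0 := by positivity
    have q4 : (m : ℚ) + 1 ≠ 0 := by positivity
    have q5 : (m : ℚ) + 1 + 1 ≠ 0 := by positivity
    field_simp
    ring

theorem G_zero (k : ℕ) : G 0 k = 0 := by simp [G]

theorem F_of_lt (n k : ℕ) (h : n < k) : F n k = 0 := by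
  have : ¬ (2 * k ≤ n) := by omega
  simp [F, this]

theorem partial_sum (N k : ℕ) :
    (∑ n ∈ range N, F n (k + 1)) - ∑ n ∈ range N, F n k = G N k := by
  rw [← Finset.sum_sub_distrib]
  have h : ∀ n ∈ range N, F n (k + 1) - F n k = G (n + 1) k - G n k := fun n _ => pair n k
  rw [Finset.sum_congr rfl h, Finset.sum_range_sub (fun n => G n k) N, G_zero, sub_zero]

theorem sum_eq (N : ℕ) : ∑ n ∈ range N, F n 0 = - ∑ k ∈ range N, G N k := by
  have h1 : ∑ k ∈ range N, G N k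
      = ∑ k ∈ range N, ((∑ n ∈ range N, F n (k + 1)) - ∑ n ∈ range N, F n k) :=
    Finset.sum_congr rfl fun k _ => (partial_sum N k).symm
  have h2 := Finset.sum_range_sub (fun k => ∑ n ∈ range N, F n k) N
  rw [h1, h2]
  have h3 : ∑ n ∈ range N, F n N = 0 :=
    Finset.sum_eq_zero fun n hn => F_of_lt n N (Finset.mem_range.1 hn)
  rw [h3]
  ring

theorem cb (k : ℕ) : ((2 * k).choose k : ℚ) = ((2 * k).factorial : ℚ) / (k.factorial : ℚ) ^ 2 := by
  rw [Nat.cast_choose ℚ (by omega : k ≤ 2 * k)]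
  have : 2 * k - k = k := by omega
  rw [this]; ring

theorem ct (k : ℕ) : ((3 * k).choose k : ℚ)
    = ((3 * k).factorial : ℚ) / ((k.factorial : ℚ) * ((2 * k).factorial : ℚ)) := by
  rw [Nat.cast_choose ℚ (by omega : k ≤ 3 * k)]
  have : 3 * k - k = 2 * k := by omega
  rw [this]

theorem F_at_zero (k : ℕ) : F k 0 * (-64) ^ k = (a k : ℚ) := by
  have g1 := fac_ne (2 * k)
  have g2 := fac_ne k
  unfold a
  push_cast
  rw [cb, ct]
  simp only [F, g_zero, mul_zero, Nat.zero_le, if_true, Nat.sub_zero, pow_zero, Nat.add_zero]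
  unfold g
  have e : (-64 : ℚ) ^ k = (-1) ^ k * (4 ^ k) ^ 3 := by
    rw [← pow_mul, mul_comm k 3, pow_mul, ← mul_pow]; norm_num
  have e2 : ((-1 : ℚ) ^ k) * (-1) ^ k = 1 := by rw [← mul_pow]; norm_num
  rw [e]
  have h4 : (4 : ℚ) ^ k ≠ 0 := by positivity
  generalize (4 : ℚ) ^ k = x at *
  generalize (-1 : ℚ) ^ k = y at *
  push_cast
  field_simp
  linear_combination (28 * (k : ℚ) ^ 2 + 18 * k + 3) * e2

/-- the normalised term -/
theorem term (r k : ℕ) (ρ : ℕ) (h : ((A r k).map Nat.factorial).prod * (4 * ρ)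
    = ((B r k).map Nat.factorial).prod) :
    (-64) ^ (r + 2 * k) * (-G (r + 2 * k + 1) k)
      = (2 * ((r + 2 * k + 1 : ℕ) : ℚ) + 1) * ((r + 2 * k + 1 : ℕ) : ℚ) ^ 2 *
        ((2 * (r + 2 * k + 1)).choose (r + 2 * k + 1) : ℚ) ^ 2 * ρ := by
  have h1 : 2 * k + 1 ≤ r + 2 * k + 1 := by omega
  have s1 : r + 2 * k + 1 - (k + 1) = r + k := by omega
  have s2 : r + 2 * k + 1 - (2 * k + 1) = r := by omega
  have s3 : r + 2 * k + 1 + k = r + 3 * k + 1 := by ring
  have s4 : 3 * (r + 2 * k + 1) = 3 * r + 6 * k + 3 := by ring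
  have s5 : 2 * (r + 2 * k + 1) = 2 * r + 4 * k + 2 := by ring
  have s6 : 2 * (r + k) = 2 * r + 2 * k := by ring
  unfold G
  rw [if_pos h1, s1, s2, s3, s4, cb, s5]
  unfold g
  rw [s5, s6, Nat.factorial_succ (r + 2 * k), pow_succ (4 : ℚ) (r + 2 * k),
    pow_succ (-1 : ℚ) (r + 2 * k)]
  have hc : ((k.factorial * ((r + k).factorial * ((r + k).factorial * ((r + 3 * k + 1).factorial *
      ((r + 2 * k).factorial * ((2 * r + 4 * k + 3).factorial * r.factorial)))))) * (4 * ρ) : ℚ)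
      = (2 * k).factorial * ((2 * r + 2 * k).factorial * ((2 * r + 2 * k).factorial *
        (3 * r + 6 * k + 3).factorial)) := by
    simp only [A, B, List.map_cons, List.map_nil, List.prod_cons, List.prod_nil, mul_one] at h
    exact_mod_cast h
  rw [Nat.factorial_succ (2 * r + 4 * k + 2)] at hc
  have e1 : (-64 : ℚ) ^ (r + 2 * k) = (-1) ^ (r + 2 * k) * (4 ^ (r + 2 * k) * (4 ^ k * 4 ^ k) *
      (4 ^ (r + k)) ^ 2) := by
    rw [← pow_mul, ← pow_add, ← pow_add, ← pow_add]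
    have : r + 2 * k + (k + k) + (r + k) * 2 = 3 * (r + 2 * k) := by ring
    rw [this, pow_mul, ← mul_pow]
    norm_num
  rw [e1]
  have e2 : ((-1 : ℚ) ^ (r + 2 * k)) * (-1) ^ (r + 2 * k) = 1 := by rw [← mul_pow]; norm_num
  have g1 := fac_ne k
  have g2 := fac_ne (r + k)
  have g3 := fac_ne (r + 3 * k + 1)
  have g4 := fac_ne (r + 2 * k)
  have g5 := fac_ne (2 * r + 4 * k + 2)
  have g6 := fac_ne r
  generalize (2 * k).factorial = X1 at *
  generalize (2 * r + 2 * k).factorial = X2 at *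
  generalize (3 * r + 6 * k + 3).factorial = X3 at *
  generalize (2 * r + 4 * k + 2).factorial = X4 at *
  generalize (r + k).factorial = Y1 at *
  generalize (r + 3 * k + 1).factorial = Y2 at *
  generalize (r + 2 * k).factorial = Y3 at *
  generalize r.factorial = Y4 at *
  generalize k.factorial = Y5 at *
  have p1 : (4 : ℚ) ^ (r + 2 * k) ≠ 0 := by positivity
  have p2 : (4 : ℚ) ^ k ≠ 0 := by positivity
  have p3 : (4 : ℚ) ^ (r + k) ≠ 0 := by positivity
  generalize (4 : ℚ) ^ (r + 2 * k) = Z1 at *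
  generalize (4 : ℚ) ^ k = Z2 at *
  generalize (4 : ℚ) ^ (r + k) = Z3 at *
  generalize (-1 : ℚ) ^ (r + 2 * k) = Z4 at *
  push_cast at hc ⊢
  have q1 : (r : ℚ) + 2 * k + 1 ≠ 0 := by positivity
  have q2 : 2 * (r : ℚ) + 4 * k + 2 + 1 ≠ 0 := by positivity
  have q3 : 2 * ((r : ℚ) + 2 * k + 1) + 1 ≠ 0 := by positivity
  have hρ : (ρ : ℚ) = X1 * X2 ^ 2 * X3 / (4 * (Y5 * Y1 ^ 2 * Y2 * Y3 *
      ((2 * (r : ℚ) + 4 * k + 2 + 1) * X4) * Y4)) := by
    field_simp
    linear_combination hc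
  rw [hρ]
  field_simp
  linear_combination ((2 * ((r : ℚ) + 2 * k + 1) + 1) * X1 * X2 ^ 2 * X3) * e2

theorem main (n : ℕ) (hn : 1 < n) :
    (((2 * n + 1) * n ^ 2 * ((2 * n).choose n) ^ 2 : ℕ) : ℤ) ∣
      ∑ k ∈ Finset.range n, a k * (-64) ^ (n - 1 - k) := by
  have hρ : ∀ k ∈ range n, ∃ z : ℤ, (-64 : ℚ) ^ (n - 1) * (-G n k)
      = (2 * (n : ℚ) + 1) * (n : ℚ) ^ 2 * ((2 * n).choose n : ℚ) ^ 2 * z := by
    intro k _
    by_cases h : 2 * k + 1 ≤ n
    · obtain ⟨r, rfl⟩ : ∃ r, n = r + 2 * k + 1 := ⟨n - 2 * k - 1, by omega⟩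
      obtain ⟨ρ, hρ⟩ := exists_four r k (by omega)
      refine ⟨ρ, ?_⟩
      have := term r k ρ hρ
      rw [Nat.add_sub_cancel]
      push_cast at this ⊢
      exact this
    · refine ⟨0, ?_⟩
      unfold G
      rw [if_neg h]
      simp
  choose! z hz using hρ
  refine ⟨∑ k ∈ range n, z k, ?_⟩
  have hS : ((∑ k ∈ Finset.range n, a k * (-64) ^ (n - 1 - k) : ℤ) : ℚ)
      = (-64) ^ (n - 1) * ∑ k ∈ range n, F k 0 := by
    push_cast
    rw [Finset.mul_sum]
    apply Finset.sum_congr rfl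
    intro k hk
    rw [Finset.mem_range] at hk
    have h1 : (-64 : ℚ) ^ (n - 1) = (-64) ^ (n - 1 - k) * (-64) ^ k := by
      rw [← pow_add]; congr 1; omega
    rw [h1, ← F_at_zero]
    ring
  have hmain : ((∑ k ∈ Finset.range n, a k * (-64) ^ (n - 1 - k) : ℤ) : ℚ)
      = (((((2 * n + 1) * n ^ 2 * ((2 * n).choose n) ^ 2 : ℕ) : ℤ) * ∑ k ∈ range n, z k : ℤ) : ℚ) := by
    rw [hS, sum_eq, ← Finset.sum_neg_distrib, Finset.mul_sum]
    push_cast
    rw [Finset.mul_sum]
    exact Finset.sum_congr rfl fun k hk => hz k hk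
  exact_mod_cast hmain

/-- **Q2.** For every `n > 1`, `(2n+1) n² C(2n,n)²` divides `∑_{k<n} a_k (-64)^{n-1-k}`. -/
theorem result : ∀ n : ℕ, 1 < n →
    (2 * (n : ℤ) + 1) * (n : ℤ) ^ 2 * ((2 * n).choose n : ℤ) ^ 2 ∣
      ∑ k ∈ Finset.range n, a k * (-64) ^ (n - 1 - k) := by
  intro n hn
  have := main n hn
  push_cast at this
  exact this

end Pool.Agent.Results.MP_147bb8_nt.Divisibility
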